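import Pool.Agent.Helper55.DH.EFinal

/-!
# MP_549b7c_lc: dynamic convex hulls with line-stabbing queries, `O(log n)` sign tests per operation

There is a data structure for insertions, deletions and line-stabbing queries which uses the coordinates only through sign tests (the
sign of one of finitely many fixed integer polynomials at the arguments of at most five operations); all answers are correct, a query
makes `O(log n)` sign tests in the worst case, and the amortized number of sign tests of each operation is `O(log n)`.
-/

namespace Pool.Agent.Results.MP_549b7c_lc.SignTestsStabbing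

open Pool.Agent.Helper55.DH

theorem result : ∃ D : Structure,
    (∀ (ops : ℕ → Op) (t : ℕ) (a b c : ℝ), ops t = .stab a b c → (a, b) ≠ (0, 0) →
      IsAnswer (current ops t) a b c (D.answer ops t)) ∧
    ∃ C : ℕ, (∀ (ops : ℕ → Op) (t : ℕ), (ops t).kind = .stab → D.cost ops t ≤ C * Nat.log 2 ((current ops t).ncard + 2)) ∧
      ∀ (ops : ℕ → Op) (T : ℕ),
        ∑ t ∈ Finset.range T, D.cost ops t ≤ C * ∑ t ∈ Finset.range T, Nat.log 2 ((current ops t).ncard + 2) :=
  main

end Pool.Agent.Results.MP_549b7c_lc.SignTestsStabbing
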